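import Mathlib
import Pool.Agent.MP_743f82_co.H61.Sound

set_option autoImplicit false

namespace Pool.Agent.Results.MP_743f82_co.FirstPlayerWin

variable {n : ℕ}

/-- A strategy: the next move, as a function of the list of all earlier moves (latest first). -/
abbrev Strategy (n : ℕ) : Type := List (Sym2 (Fin n)) → Sym2 (Fin n)

/-- The list of the first `i` moves (latest first) when the first player follows `σ` and the
second follows `τ`. -/
def hist (σ τ : Strategy n) : ℕ → List (Sym2 (Fin n))
  | 0 => []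
  | i + 1 => (if i % 2 = 0 then σ (hist σ τ i) else τ (hist σ τ i)) :: hist σ τ i

/-- Move number `i` (from `0`): even moves are the first player's, odd ones the second's. -/
def move (σ τ : Strategy n) (i : ℕ) : Sym2 (Fin n) :=
  if i % 2 = 0 then σ (hist σ τ i) else τ (hist σ τ i)

/-- `e` is an edge of the complete graph not claimed in the history `h`. -/
def Free (h : List (Sym2 (Fin n))) (e : Sym2 (Fin n)) : Prop :=
  e ∈ (⊤ : SimpleGraph (Fin n)).edgeSet ∧ e ∉ h

/-- The graph of the edges owned, after move `i`, by the player who made move `i`. -/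
def owned (σ τ : Strategy n) (i : ℕ) : SimpleGraph (Fin n) :=
  SimpleGraph.fromEdgeSet {e | ∃ j ≤ i, j % 2 = i % 2 ∧ move σ τ j = e}

/-- After move `i` its player owns all edges of a copy of a member of `F`. -/
def Loses (F : Set (SimpleGraph (Fin n))) (σ τ : Strategy n) (i : ℕ) : Prop :=
  ∃ H ∈ F, H.IsContained (owned σ τ i)

/-- The first player has a strategy such that, against every strategy of the second player that
claims a free edge whenever there is one, the play reaches a move `t` of the second player with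
all moves up to `t` legal, nobody having lost before, and the second player losing at `t`. -/
def FirstWins (F : Set (SimpleGraph (Fin n))) : Prop :=
  ∃ σ : Strategy n, ∀ τ : Strategy n, (∀ h, (∃ e, Free h e) → Free h (τ h)) →
    ∃ t, t % 2 = 1 ∧ (∀ i ≤ t, Free (hist σ τ i) (move σ τ i)) ∧
      (∀ i < t, ¬ Loses F σ τ i) ∧ Loses F σ τ t

/-- The edges of the two players in a history. -/
def split : List (Sym2 (Fin n)) → Finset (Sym2 (Fin n)) × Finset (Sym2 (Fin n))
  | [] => (∅, ∅)
  | e :: h => if h.length % 2 = 0 then (insert e (split h).1, (split h).2)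
      else ((split h).1, insert e (split h).2)

lemma hist_succ (σ τ : Strategy n) (i : ℕ) : hist σ τ (i + 1) = move σ τ i :: hist σ τ i := rfl

lemma length_hist (σ τ : Strategy n) (i : ℕ) : (hist σ τ i).length = i := by
  induction i with
  | zero => rfl
  | succ i ih => rw [hist_succ, List.length_cons, ih]

lemma split_even (σ τ : Strategy n) {i : ℕ} (hi : i % 2 = 0) : split (hist σ τ (i + 1)) =
    (insert (move σ τ i) (split (hist σ τ i)).1, (split (hist σ τ i)).2) := by
  rw [hist_succ, split, length_hist, if_pos hi]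

lemma split_odd (σ τ : Strategy n) {i : ℕ} (hi : i % 2 = 1) : split (hist σ τ (i + 1)) =
    ((split (hist σ τ i)).1, insert (move σ τ i) (split (hist σ τ i)).2) := by
  rw [hist_succ, split, length_hist, if_neg (by omega)]

lemma mem_split (σ τ : Strategy n) (i : ℕ) (e : Sym2 (Fin n)) :
    (e ∈ (split (hist σ τ i)).1 ↔ ∃ j < i, j % 2 = 0 ∧ move σ τ j = e) ∧
    (e ∈ (split (hist σ τ i)).2 ↔ ∃ j < i, j % 2 = 1 ∧ move σ τ j = e) ∧
    (e ∈ hist σ τ i ↔ e ∈ (split (hist σ τ i)).1 ∨ e ∈ (split (hist σ τ i)).2) := by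
  induction i with
  | zero => simp [hist, split]
  | succ i ih =>
    obtain ⟨h1, h2, h3⟩ := ih
    rcases Nat.mod_two_eq_zero_or_one i with hi | hi
    · rw [split_even σ τ hi, hist_succ]
      simp only [Finset.mem_insert, List.mem_cons, Nat.exists_lt_succ_right, h3, hi, ← h1, ← h2]
      refine ⟨?_, by simp, or_assoc.symm⟩
      simp only [true_and, eq_comm (a := e)]
      exact or_comm
    · rw [split_odd σ τ hi, hist_succ]
      simp only [Finset.mem_insert, List.mem_cons, Nat.exists_lt_succ_right, h3, hi, ← h1, ← h2]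
      refine ⟨by simp, ?_, or_left_comm⟩
      simp only [true_and, eq_comm (a := e)]
      exact or_comm

lemma owned_even (σ τ : Strategy n) {i : ℕ} (hi : i % 2 = 0) : owned σ τ i =
    SimpleGraph.fromEdgeSet ↑(insert (move σ τ i) (split (hist σ τ i)).1) := by
  have h := fun e => (mem_split σ τ (i + 1) e).1
  simp only [split_even σ τ hi] at h
  unfold owned
  congr 1
  ext e
  rw [Finset.mem_coe, h, hi]
  simp only [Set.mem_setOf_eq, Nat.lt_succ_iff]

lemma owned_odd (σ τ : Strategy n) {i : ℕ} (hi : i % 2 = 1) : owned σ τ i =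
    SimpleGraph.fromEdgeSet ↑(insert (move σ τ i) (split (hist σ τ i)).2) := by
  have h := fun e => (mem_split σ τ (i + 1) e).2.1
  simp only [split_odd σ τ hi] at h
  unfold owned
  congr 1
  ext e
  rw [Finset.mem_coe, h, hi]
  simp only [Set.mem_setOf_eq, Nat.lt_succ_iff]

lemma free_iff (σ τ : Strategy n) (i : ℕ) (e : Sym2 (Fin n)) : Free (hist σ τ i) e ↔
    ¬ e.IsDiag ∧ e ∉ (split (hist σ τ i)).1 ∧ e ∉ (split (hist σ τ i)).2 := by
  unfold Free
  rw [(mem_split σ τ i e).2.2, not_or, SimpleGraph.edgeSet_top]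
  simp

open Pool.Agent.MP_743f82_co.H61

/-- The forbidden family. -/
def fam : Set (SimpleGraph (Fin 6)) := {H | ∃ k < 15, H = SimpleGraph.fromEdgeSet ↑(dec (line k))}

lemma contained_iff (A : Finset (Sym2 (Fin 6))) :
    (∃ H ∈ fam, H.IsContained (SimpleGraph.fromEdgeSet (↑A : Set (Sym2 (Fin 6))))) ↔
      ∃ ℓ ∈ Lines, ℓ ⊆ A := by
  constructor
  · rintro ⟨_, ⟨k, hk, rfl⟩, ⟨f⟩⟩
    let ρ : Equiv.Perm (Fin 6) :=
      Equiv.ofBijective f (Finite.injective_iff_bijective.1 f.injective)
    refine ⟨_, ⟨ρ, k, hk, rfl⟩, fun e he => ?_⟩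
    obtain ⟨x, y, rfl⟩ := map_surj ρ e
    rw [mem_img] at he
    have h1 : (SimpleGraph.fromEdgeSet ↑(dec (line k))).Adj x y :=
      (SimpleGraph.fromEdgeSet_adj _).2 ⟨he, adj_ne ((mem_dec _ x y).1 he)⟩
    exact ((SimpleGraph.fromEdgeSet_adj _).1 (f.toHom.map_adj h1)).1
  · rintro ⟨_, ⟨ρ, k, hk, rfl⟩, hs⟩
    refine ⟨_, ⟨k, hk, rfl⟩, ⟨⟨⟨ρ, fun {x y} h => ?_⟩, ρ.injective⟩⟩⟩
    rw [SimpleGraph.fromEdgeSet_adj] at h ⊢
    exact ⟨hs ((mem_img ρ _ s(x, y)).2 h.1), fun e => h.2 (ρ.injective e)⟩

lemma card_dec : ∀ k < 15, (dec (line k)).card = 7 := by decide +kernel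

open Classical in
/-- The winning strategy. -/
noncomputable def strat : Strategy 6 := fun h =>
  if hW : split h ∈ Wins ∧ (split h).1.card = (split h).2.card then
    (first_move _ hW.1 hW.2).choose else s(0, 0)

lemma invariant (τ : Strategy 6) (hτ : ∀ h, (∃ e, Free h e) → Free h (τ h)) (k : ℕ) :
    (∃ t, t % 2 = 1 ∧ (∀ i ≤ t, Free (hist strat τ i) (move strat τ i)) ∧
      (∀ i < t, ¬ Loses fam strat τ i) ∧ Loses fam strat τ t) ∨
    (split (hist strat τ (2 * k)) ∈ Wins ∧ (split (hist strat τ (2 * k))).1.card = k ∧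
      (split (hist strat τ (2 * k))).2.card = k ∧
      ∀ i < 2 * k, Free (hist strat τ i) (move strat τ i) ∧ ¬ Loses fam strat τ i) := by
  induction k with
  | zero => exact Or.inr ⟨start_mem, rfl, rfl, fun i hi => absurd hi (by omega)⟩
  | succ k ih =>
    rcases ih with ih | ⟨h1, h2, h3, h4⟩
    · exact Or.inl ih
    have he : (2 * k) % 2 = 0 := by omega
    have ho : (2 * k + 1) % 2 = 1 := by omega
    have hm : move strat τ (2 * k) = (first_move _ h1 (h2.trans h3.symm)).choose := by
      rw [move, if_pos he, strat, dif_pos ⟨h1, h2.trans h3.symm⟩]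
    obtain ⟨a1, a2, a3, a4, a5⟩ := (first_move _ h1 (h2.trans h3.symm)).choose_spec
    rw [← hm] at a1 a2 a3 a4 a5
    have f1 : Free (hist strat τ (2 * k)) (move strat τ (2 * k)) :=
      (free_iff _ _ _ _).2 ⟨a1, a2, a3⟩
    have l1 : ¬ Loses fam strat τ (2 * k) := by
      rw [Loses, owned_even _ _ he, contained_iff]
      rintro ⟨ℓ, b1, b2⟩
      exact a4 ℓ b1 b2
    have c1 : (split (hist strat τ (2 * k + 1))).1.card = k + 1 := by
      rw [split_even _ _ he, Finset.card_insert_of_notMem a2, h2]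
    have c2 : (split (hist strat τ (2 * k + 1))).2.card = k := by
      rw [split_even _ _ he, h3]
    rw [← split_even _ _ he] at a5
    obtain ⟨⟨e, b1⟩, b2⟩ := second_move _ a5 (by rw [c1, c2])
    have f2 : Free (hist strat τ (2 * k + 1)) (move strat τ (2 * k + 1)) := by
      rw [move, if_neg (by omega)]
      exact hτ _ ⟨e, (free_iff _ _ _ _).2 b1⟩
    obtain ⟨d1, d2, d3⟩ := (free_iff _ _ _ _).1 f2
    have prev : ∀ i < 2 * k + 1, Free (hist strat τ i) (move strat τ i) ∧
        ¬ Loses fam strat τ i := fun i hi => by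
      rcases (Nat.lt_succ_iff.1 hi).eq_or_lt with rfl | h
      · exact ⟨f1, l1⟩
      · exact h4 i h
    by_cases l2 : Loses fam strat τ (2 * k + 1)
    · refine Or.inl ⟨2 * k + 1, ho, fun i hi => ?_, fun i hi => (prev i hi).2, l2⟩
      rcases hi.eq_or_lt with rfl | h
      · exact f2
      · exact (prev i h).1
    · right
      rw [show 2 * (k + 1) = 2 * k + 1 + 1 by ring, split_odd _ _ ho]
      refine ⟨(b2 _ d1 d2 d3).resolve_left ?_, c1, ?_, fun i hi => ?_⟩
      · rwa [Loses, owned_odd _ _ ho, contained_iff] at l2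
      · rw [Finset.card_insert_of_notMem d3, c2]
      · rcases (Nat.lt_succ_iff.1 hi).eq_or_lt with rfl | h
        · exact ⟨f2, l2⟩
        · exact prev i h

theorem result : ∃ F : Set (SimpleGraph (Fin 6)), F.Nonempty ∧
    (∀ H ∈ F, H.edgeSet.ncard = 7) ∧ FirstWins F := by
  refine ⟨fam, ⟨_, 0, by norm_num, rfl⟩, ?_, strat, fun τ hτ => ?_⟩
  · rintro _ ⟨k, hk, rfl⟩
    have : (SimpleGraph.fromEdgeSet (↑(dec (line k)) : Set (Sym2 (Fin 6)))).edgeSet =
        ↑(dec (line k)) := by
      rw [SimpleGraph.edgeSet_fromEdgeSet]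
      exact sdiff_eq_left.2 (Set.disjoint_left.2 fun e he hd => dec_nondiag he hd)
    rw [this, Set.ncard_coe_finset, card_dec k hk]
  · refine (invariant τ hτ (Fintype.card (Sym2 (Fin 6)) + 1)).resolve_right ?_
    rintro ⟨-, h, -⟩
    have := Finset.card_le_univ (split (hist strat τ (2 * (Fintype.card (Sym2 (Fin 6)) + 1)))).1
    omega

end Pool.Agent.Results.MP_743f82_co.FirstPlayerWin
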